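import Pool.Agent.helper34.MO.SpecD

set_option autoImplicit false

/-! # Row IZT of project MO: the integral of the triangle sum -/

namespace Pool.Agent.MO

open Complex Finset

theorem IZT_iT_cont (m : ℕ) (R : ℝ) : ContinuousOn (fun t : ℝ => iT t m) (Set.Icc 10 R) := by
  unfold iT
  refine ContinuousOn.div continuousOn_id (by fun_prop) ?_
  intro t ht
  have h1 : (10 : ℝ) ≤ t := ht.1
  have h2 : (0 : ℝ) ≤ m := Nat.cast_nonneg m
  positivity

theorem IZT_cont (τ : Tr) (R : ℝ) : ∀ ma mb : ℕ,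
    ContinuousOn (fun t : ℝ => ZT t τ ma mb) (Set.Icc 10 R) := by
  induction τ with
  | e =>
    intro ma mb
    exact continuousOn_const
  | nd l r hl hr =>
    intro ma mb
    have h1 := IZT_iT_cont (l.rs + r.ls) R
    have h2 := IZT_iT_cont ma R
    have h3 := IZT_iT_cont mb R
    exact ((((continuousOn_const.mul h1).mul h2).mul h3).add (hl ma (l.rs + r.ls))).add
      (hr (l.rs + r.ls) mb)

theorem IZT_int (τ : Tr) (ma mb : ℕ) (R : ℝ) (hR : 10 ≤ R) :
    IntervalIntegrable (fun t : ℝ => t * (0.83 * ZT t τ ma mb)) MeasureTheory.volume 10 R := by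
  apply ContinuousOn.intervalIntegrable
  rw [Set.uIcc_of_le hR]
  exact continuousOn_id.mul (continuousOn_const.mul (IZT_cont τ R ma mb))

theorem IZT_pt (a b c : ℕ) (M : ℕ) (ha : a ≤ M) (hb : b ≤ M) (hc : c ≤ M) (t : ℝ) (ht : 10 ≤ t) :
    t ^ 4 / (t ^ 2 + 1.053 * (M : ℝ)) ^ 3 ≤ t * (iT t a * iT t b * iT t c) := by
  have h0 : (0 : ℝ) < t := by linarith
  have hp : ∀ n : ℕ, 0 < t ^ 2 + 1.053 * (n : ℝ) := by
    intro n
    have : (0 : ℝ) ≤ n := Nat.cast_nonneg n
    positivity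
  have hm : ∀ n : ℕ, n ≤ M → t ^ 2 + 1.053 * (n : ℝ) ≤ t ^ 2 + 1.053 * (M : ℝ) := by
    intro n hn
    have : (n : ℝ) ≤ M := by exact_mod_cast hn
    linarith
  have e : t * (iT t a * iT t b * iT t c) =
      t ^ 4 / ((t ^ 2 + 1.053 * (a : ℝ)) * (t ^ 2 + 1.053 * (b : ℝ)) * (t ^ 2 + 1.053 * (c : ℝ))) := by
    unfold iT
    have h1 := (hp a).ne'
    have h2 := (hp b).ne'
    have h3 := (hp c).ne'
    field_simp
  rw [e]
  apply div_le_div_of_nonneg_left (by positivity)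
  · exact mul_pos (mul_pos (hp a) (hp b)) (hp c)
  · have e3 : (t ^ 2 + 1.053 * (M : ℝ)) ^ 3 =
        (t ^ 2 + 1.053 * (M : ℝ)) * (t ^ 2 + 1.053 * (M : ℝ)) * (t ^ 2 + 1.053 * (M : ℝ)) := by ring
    rw [e3]
    exact mul_le_mul (mul_le_mul (hm a ha) (hm b hb) (hp b).le (hp M).le) (hm c hc) (hp c).le
      (mul_pos (hp M) (hp M)).le

theorem IZT_gg (M : ℕ) : gg M = 4 / Real.pi * (1.66 * (1 / 8 * (3 / Real.sqrt (100 + 1.053 * M) +
    10 * (500 + 3.159 * M) / (100 + 1.053 * M) ^ 2))) := by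
  unfold gg
  have := Real.pi_ne_zero
  ring

theorem IZT_node (hIGG : IGG_stmt) (a b c M : ℕ) (ha : a ≤ M) (hb : b ≤ M) (hc : c ≤ M) (ε : ℝ)
    (hε : 0 < ε) : ∃ R0 : ℝ, 10 ≤ R0 ∧ ∀ R : ℝ, R0 ≤ R →
    gg M - ε ≤ 4 / Real.pi * ∫ t in (10 : ℝ)..R, 1.66 * (t * (iT t a * iT t b * iT t c)) := by
  obtain ⟨R0, h10, h⟩ := hIGG M (ε / 3) (by positivity)
  refine ⟨R0, h10, fun R hR => ?_⟩
  have hR10 : (10 : ℝ) ≤ R := h10.trans hR
  have h1 := h R hR
  have hmono : ∫ t in (10 : ℝ)..R, t ^ 4 / (t ^ 2 + 1.053 * (M : ℝ)) ^ 3 ≤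
      ∫ t in (10 : ℝ)..R, t * (iT t a * iT t b * iT t c) := by
    apply intervalIntegral.integral_mono_on hR10
    · apply ContinuousOn.intervalIntegrable
      rw [Set.uIcc_of_le hR10]
      refine ContinuousOn.div (by fun_prop) (by fun_prop) ?_
      intro t ht
      have h1 : (10 : ℝ) ≤ t := ht.1
      have h2 : (0 : ℝ) ≤ M := Nat.cast_nonneg M
      positivity
    · apply ContinuousOn.intervalIntegrable
      rw [Set.uIcc_of_le hR10]
      exact continuousOn_id.mul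
        (((IZT_iT_cont a R).mul (IZT_iT_cont b R)).mul (IZT_iT_cont c R))
    · intro t ht
      exact IZT_pt a b c M ha hb hc t ht.1
  rw [intervalIntegral.integral_const_mul, IZT_gg]
  have hpi := Real.pi_gt_three
  have h2 : 4 / Real.pi * 1.66 ≤ 3 := by
    rw [div_mul_eq_mul_div, div_le_iff₀ Real.pi_pos]
    linarith
  have h3 : 0 ≤ 4 / Real.pi * (1.66 : ℝ) := by positivity
  have h4 := mul_le_mul_of_nonneg_left (h1.trans hmono) h3
  have h5 : 4 / Real.pi * (1.66 : ℝ) * (ε / 3) ≤ 3 * (ε / 3) :=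
    mul_le_mul_of_nonneg_right h2 (by positivity)
  rw [mul_sub] at h4
  have h6 : ∀ x : ℝ, 4 / Real.pi * (1.66 * x) = 4 / Real.pi * 1.66 * x := fun x => by ring
  rw [h6, h6]
  linarith

theorem IZT (hIGG : IGG_stmt) : IZT_stmt := by
  intro τ
  induction τ with
  | e =>
    intro ma mb ε hε
    refine ⟨10, le_refl _, fun R _ => ?_⟩
    have h1 : ∀ t : ℝ, t * (0.83 * ZT t Tr.e ma mb) = 0 := by
      intro t
      simp [ZT]
    simp only [h1, intervalIntegral.integral_zero, mul_zero, GS]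
    linarith
  | nd l r hl hr =>
    intro ma mb ε hε
    obtain ⟨R1, h10, h1⟩ := IZT_node hIGG (l.rs + r.ls) ma mb (max (l.rs + r.ls) (max ma mb))
      (le_max_left _ _) ((le_max_left _ _).trans (le_max_right _ _))
      ((le_max_right _ _).trans (le_max_right _ _)) (ε / 3) (by positivity)
    obtain ⟨R2, -, h2⟩ := hl ma (l.rs + r.ls) (ε / 3) (by positivity)
    obtain ⟨R3, -, h3⟩ := hr (l.rs + r.ls) mb (ε / 3) (by positivity)
    refine ⟨max R1 (max R2 R3), h10.trans (le_max_left _ _), fun R hR => ?_⟩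
    have g1 := h1 R ((le_max_left _ _).trans hR)
    have g2 := h2 R (((le_max_left _ _).trans (le_max_right _ _)).trans hR)
    have g3 := h3 R (((le_max_right _ _).trans (le_max_right _ _)).trans hR)
    have hR10 : (10 : ℝ) ≤ R := (h10.trans (le_max_left _ _)).trans hR
    have e1 : ∀ t : ℝ, t * (0.83 * ZT t (Tr.nd l r) ma mb) =
        1.66 * (t * (iT t (l.rs + r.ls) * iT t ma * iT t mb)) +
          t * (0.83 * ZT t l ma (l.rs + r.ls)) + t * (0.83 * ZT t r (l.rs + r.ls) mb) := by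
      intro t
      simp only [ZT]
      ring
    have i1 : IntervalIntegrable (fun t : ℝ => 1.66 * (t * (iT t (l.rs + r.ls) * iT t ma * iT t mb)))
        MeasureTheory.volume 10 R := by
      apply ContinuousOn.intervalIntegrable
      rw [Set.uIcc_of_le hR10]
      exact continuousOn_const.mul (continuousOn_id.mul
        (((IZT_iT_cont _ R).mul (IZT_iT_cont _ R)).mul (IZT_iT_cont _ R)))
    have i2 := IZT_int l ma (l.rs + r.ls) R hR10
    have i3 := IZT_int r (l.rs + r.ls) mb R hR10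
    have e2 : (∫ t in (10 : ℝ)..R, t * (0.83 * ZT t (Tr.nd l r) ma mb)) =
        (∫ t in (10 : ℝ)..R, 1.66 * (t * (iT t (l.rs + r.ls) * iT t ma * iT t mb))) +
          (∫ t in (10 : ℝ)..R, t * (0.83 * ZT t l ma (l.rs + r.ls))) +
          ∫ t in (10 : ℝ)..R, t * (0.83 * ZT t r (l.rs + r.ls) mb) := by
      simp only [e1]
      rw [intervalIntegral.integral_add (i1.add i2) i3, intervalIntegral.integral_add i1 i2]
    rw [e2, mul_add, mul_add]
    simp only [GS]
    linarith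

end Pool.Agent.MO
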