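import Pool.Agent.helper34.MO.SpecD

set_option autoImplicit false

/-! # Row LRG of project MO: large n -/

namespace Pool.Agent.MO

open Complex Finset

theorem LRG (hEVK : EVK_stmt) (hATS : ATS_stmt) (hLKU : LKU_stmt) (hLT1 : LT1_stmt)
    (hGE1 : GE1_stmt) (hTDF : TDF_stmt) (hDLO : DLO_stmt) (hCBF : CBF_stmt) : LRG_stmt := by
  intro τ hτ
  have hsum : (evA (AG τ) (τ.sz + 2)).sum = 0 := by
    rw [(hEVK (AG τ) (τ.sz + 2) fun x y => (hATS.2 τ x y).1).2.1]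
    exact Finset.sum_eq_zero fun i _ => (hATS.2 τ i i).2.2.1
  have h1 := hDLO (evA (AG τ) (τ.sz + 2)) τ τ.ls (τ.rs + 1) (hT τ : ℝ)
    (xc τ τ.ls (τ.rs + 1) false : ℝ) hsum (Nat.cast_nonneg _) (Nat.cast_nonneg _)
    (fun t ht0 ht1 => by
      rw [hLKU τ t ht0]
      exact hLT1 τ t ht0 ht1)
    (fun t ht => by
      rw [hLKU τ t (by linarith)]
      exact hGE1 τ t ht)
    (fun t ht => by
      rw [hLKU τ t (by linarith)]
      exact hTDF t τ ht)
  have h2 := hCBF τ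
  have h3 : (177 : ℝ) ≤ τ.sz := by exact_mod_cast hτ
  have h4 : min (6 : ℝ) (0.034 * (τ.sz : ℝ)) = 6 := min_eq_left (by linarith)
  rw [h4] at h2
  exact h2.trans h1

end Pool.Agent.MO
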